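import Pool.Agent.L0h7.MS.Stm3

set_option autoImplicit false

/-! # Conjugacy classes of a wreath product with a finite group (board MS, module WCC; helper72)

The class of `(f, q)` is determined by `q` and the conjugacy classes of the products of `f` along the
orbits of the left multiplication by `q⁻¹`. -/

namespace Pool.Agent.L0h72.MS

open Pool.Agent.L0h7.MS

variable {G Q : Type} [Group G] [Group Q]

/-- the product along the orbit -/
def pr (u : Q) (f : Q → G) (x : Q) : ℕ → G
  | 0 => 1
  | k + 1 => pr u f x k * f (u ^ k * x)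

theorem pr_succ (u : Q) (f : Q → G) (x : Q) (k : ℕ) :
    pr u f x (k + 1) = pr u f x k * f (u ^ k * x) := rfl

theorem pr_add (u : Q) (f : Q → G) (x : Q) (n : ℕ) (hn : u ^ n = 1) (k : ℕ) :
    pr u f x (n + k) = pr u f x n * pr u f x k := by
  induction k with
  | zero => simp [pr]
  | succ k ih => rw [← Nat.add_assoc, pr_succ, ih, pr_succ, pow_add, hn, one_mul, mul_assoc]

/-- the invariant -/
noncomputable def inv (a : RegularWreathProduct G Q) : Q × (Q → ConjClasses G) :=
  (a.right, fun x => ConjClasses.mk (pr a.right⁻¹ a.left x (orderOf a.right⁻¹)))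

theorem conj_of_inv [Finite Q] (a b : RegularWreathProduct G Q) (h : inv a = inv b) :
    IsConj a b := by
  obtain ⟨f, q⟩ := a
  obtain ⟨f', q'⟩ := b
  have hq : q = q' := congrArg Prod.fst h
  subst hq
  set u : Q := q⁻¹ with hu
  set n := orderOf u with hn
  have hc : ∀ x, IsConj (pr u f x n) (pr u f' x n) := fun x =>
    ConjClasses.mk_eq_mk_iff_isConj.1 (congrFun (congrArg Prod.snd h) x)
  choose g hg using fun x => isConj_iff.1 (hc x)
  let S := QuotientGroup.rightRel (Subgroup.zpowers u)
  let r : Q → Q := fun y => (Quotient.mk S y).out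
  have hr : ∀ y, ∃ k : ℕ, u ^ k * r y = y := by
    intro y
    have h1 : S (r y) y := Quotient.mk_out y
    rw [QuotientGroup.rightRel_apply, ← mem_powers_iff_mem_zpowers] at h1
    obtain ⟨k, hk⟩ := h1
    refine ⟨k, ?_⟩
    have hk' : u ^ k = y * (r y)⁻¹ := hk
    rw [hk', inv_mul_cancel_right]
  have hru : ∀ y, r (u * y) = r y := by
    intro y
    apply congrArg Quotient.out
    apply Quotient.sound
    change S (u * y) y
    rw [QuotientGroup.rightRel_apply, mul_inv_rev, mul_inv_cancel_left]
    exact (Subgroup.zpowers u).inv_mem (Subgroup.mem_zpowers u)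
  choose k hk using hr
  let F : Q → ℕ → G := fun x k => (pr u f' x k)⁻¹ * g x * pr u f x k
  have hF : ∀ x, Function.Periodic (F x) n := by
    intro x m
    change (pr u f' x (m + n))⁻¹ * g x * pr u f x (m + n) = (pr u f' x m)⁻¹ * g x * pr u f x m
    have hun : u ^ n = 1 := pow_orderOf_eq_one u
    rw [Nat.add_comm m n, pr_add u f' x n hun, pr_add u f x n hun, ← hg x]
    group
  have hF2 : ∀ x i j, u ^ i = u ^ j → F x i = F x j := by
    intro x i j hij
    have h1 : i % n = j % n := pow_eq_pow_iff_modEq.1 hij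
    rw [← (hF x).map_mod_nat i, h1, (hF x).map_mod_nat j]
  let c : Q → G := fun y => F (r y) (k y)
  have key : ∀ y, f' y * c (u * y) = c y * f y := by
    intro y
    have h1 : F (r (u * y)) (k (u * y)) = F (r y) (k y + 1) := by
      rw [hru]
      apply hF2
      have h2 := hk (u * y)
      rw [hru] at h2
      have h3 := hk y
      apply mul_right_cancel (b := r y)
      rw [h2, pow_succ', mul_assoc, h3]
    change f' y * F (r (u * y)) (k (u * y)) = F (r y) (k y) * f y
    rw [h1]
    change f' y * ((pr u f' (r y) (k y + 1))⁻¹ * g (r y) * pr u f (r y) (k y + 1))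
      = (pr u f' (r y) (k y))⁻¹ * g (r y) * pr u f (r y) (k y) * f y
    rw [pr_succ, pr_succ, hk]
    group
  refine isConj_iff.2 ⟨⟨c, 1⟩, ?_⟩
  rw [mul_inv_eq_iff_eq_mul]
  ext x
  · change c x * f (1⁻¹ * x) = f' x * c (q⁻¹ * x)
    rw [inv_one, one_mul]
    exact (key x).symm
  · change 1 * q = q * 1
    rw [one_mul, mul_one]

theorem t_WCC : S_WCC := by
  classical
  intro G Q _ _ hQ h6
  have h6' : Finite (ConjClasses G) := h6
  have hfin : Finite (Set.range (inv : RegularWreathProduct G Q → Q × (Q → ConjClasses G))) :=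
    inferInstance
  change Finite (ConjClasses (RegularWreathProduct G Q))
  refine Finite.of_surjective
    (fun v : Set.range (inv : RegularWreathProduct G Q → Q × (Q → ConjClasses G)) =>
      ConjClasses.mk v.2.choose) ?_
  intro d
  obtain ⟨w, rfl⟩ := ConjClasses.exists_rep d
  refine ⟨⟨inv w, w, rfl⟩, ?_⟩
  apply ConjClasses.mk_eq_mk_iff_isConj.2
  apply conj_of_inv
  exact Exists.choose_spec (⟨w, rfl⟩ : ∃ y, inv y = inv w)

end Pool.Agent.L0h72.MS
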